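import Pool.Agent.Q294.Macro.Defs

/-!
# Lower bound for the cost of covers of sets without long gaps
-/

set_option autoImplicit false

namespace Q294.Macro

open MeasureTheory ProbabilityTheory Filter Topology
open scoped ENNReal

theorem block_le {b l : ℕ} (hlb : l ≤ b) {j y m : ℤ} (h1 : j * 2 ^ l ≤ y) (h2 : y < (j + 1) * 2 ^ l)
    (h3 : m * 2 ^ b ≤ y) (h4 : y < (m + 1) * 2 ^ b) :
    m * 2 ^ (b - l) ≤ j ∧ j < (m + 1) * 2 ^ (b - l) := by
  have e : (2 : ℤ) ^ b = 2 ^ (b - l) * 2 ^ l := by rw [← pow_add, Nat.sub_add_cancel hlb]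
  have hpos : (0 : ℤ) < 2 ^ l := by positivity
  constructor
  · have : m * 2 ^ (b - l) * 2 ^ l < (j + 1) * 2 ^ l := by
      rw [mul_assoc, ← e]; exact lt_of_le_of_lt h3 h2
    have := lt_of_mul_lt_mul_right this hpos.le
    omega
  · have : j * 2 ^ l < (m + 1) * 2 ^ (b - l) * 2 ^ l := by
      rw [mul_assoc, ← e]; exact lt_of_le_of_lt h1 h4
    exact lt_of_mul_lt_mul_right this hpos.le

theorem block_ge {b l : ℕ} (hlb : b ≤ l) {j y m : ℤ} (h1 : j * 2 ^ l ≤ y) (h2 : y < (j + 1) * 2 ^ l)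
    (h3 : m * 2 ^ b ≤ y) (h4 : y < (m + 1) * 2 ^ b) :
    j * 2 ^ (l - b) ≤ m ∧ m < (j + 1) * 2 ^ (l - b) := by
  obtain ⟨h5, h6⟩ := block_le hlb h3 h4 h1 h2
  exact ⟨h5, h6⟩

/-- If `A ⊆ ℤ` meets every block of length `2^b` in `[2^n, 2^(n+1))`, then every cover of
`A ∩ S_{n+1}` by dyadic intervals costs at least `1/4`. -/
theorem quarter_le {b n : ℕ} (hbn : b ≤ n) {α : ℝ} (hα0 : 0 < α) (hα1 : α < 1)
    (hα : (b : ℝ) ≤ (1 - α) * (n + 2)) {A : Set (Fin 1 → ℤ)}
    (hA : ∀ m : ℕ, 2 ^ (n - b) ≤ m → m < 2 ^ (n + 1 - b) →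
      ∃ y ∈ A, (m : ℤ) * 2 ^ b ≤ y 0 ∧ y 0 < ((m : ℤ) + 1) * 2 ^ b) :
    1 / 4 ≤ N α A (n + 1) := by
  classical
  choose! y hyA hy1 hy2 using hA
  unfold N
  refine le_iInf₂ fun F hF => ?_
  set M : Finset ℕ := Finset.Ico (2 ^ (n - b)) (2 ^ (n + 1 - b)) with hM
  have hpow : (2 : ℕ) ^ (n + 1 - b) = 2 * 2 ^ (n - b) := by
    rw [show n + 1 - b = (n - b) + 1 by omega, pow_succ]; ring
  have hMcard : M.card = 2 ^ (n - b) := by
    rw [hM, Nat.card_Ico, hpow]; omega
  have hyS : ∀ m ∈ M, y m ∈ S 1 (n + 1) := by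
    intro m hm
    rw [hM, Finset.mem_Ico] at hm
    have h1 := hy1 m hm.1 hm.2
    have h2 := hy2 m hm.1 hm.2
    have e1 : (2 : ℤ) ^ n = 2 ^ (n - b) * 2 ^ b := by rw [← pow_add, Nat.sub_add_cancel hbn]
    have e2 : (2 : ℤ) ^ (n + 1) = 2 ^ (n + 1 - b) * 2 ^ b := by
      rw [← pow_add, Nat.sub_add_cancel (by omega)]
    have hpos : (0 : ℤ) < 2 ^ b := by positivity
    have hm1 : (2 : ℤ) ^ (n - b) ≤ m := by exact_mod_cast hm.1
    have hm2 : (m : ℤ) + 1 ≤ 2 ^ (n + 1 - b) := by exact_mod_cast hm.2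
    have h3 : (2 : ℤ) ^ n ≤ y m 0 := by
      rw [e1]; exact (mul_le_mul_of_nonneg_right hm1 hpos.le).trans h1
    have h4 : y m 0 < (2 : ℤ) ^ (n + 1) := by
      rw [e2]; exact lt_of_lt_of_le h2 (mul_le_mul_of_nonneg_right hm2 hpos.le)
    refine ⟨fun i => ?_, fun hV => ?_⟩
    · rw [Subsingleton.elim i 0]
      have h5 : (0 : ℤ) ≤ 2 ^ n := by positivity
      have h6 : (0 : ℤ) ≤ 2 ^ (n + 1) := by positivity
      constructor
      · linarith
      · exact h4
    · have := (hV 0).2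
      linarith
  have hsub : M ⊆ F.biUnion fun q => M.filter fun m => y m ∈ cube q := by
    intro m hm
    have h1 : y m ∈ A ∩ S 1 (n + 1) := by
      refine ⟨?_, hyS m hm⟩
      rw [hM, Finset.mem_Ico] at hm
      exact hyA m hm.1 hm.2
    have h2 := hF h1
    simp only [Set.mem_iUnion] at h2
    obtain ⟨q, hq, hyq⟩ := h2
    exact Finset.mem_biUnion.2 ⟨q, hq, Finset.mem_filter.2 ⟨hm, hyq⟩⟩
  have hcard : (M.card : ℝ) ≤ ∑ q ∈ F, ((M.filter fun m => y m ∈ cube q).card : ℝ) := by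
    have := (Finset.card_le_card hsub).trans Finset.card_biUnion_le
    exact_mod_cast this
  have hbound : ∀ q : ℕ × (Fin 1 → ℤ), ((M.filter fun m => y m ∈ cube q).card : ℝ) ≤
      (2 : ℝ) ^ ((n : ℝ) + 2 - b) * (2 : ℝ) ^ (α * ((q.1 : ℝ) - (n + 1 : ℕ) - 1)) := by
    intro q
    rw [← Real.rpow_add (by norm_num)]
    push_cast
    have hone : (1 : ℝ) ≤ 2 := by norm_num
    rcases le_total q.1 b with hq | hq
    · -- small cubes
      have h1 : (M.filter fun m => y m ∈ cube q).card ≤ 1 := by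
        rw [Finset.card_le_one]
        intro m hm m' hm'
        rw [Finset.mem_filter, hM, Finset.mem_Ico] at hm hm'
        have e1 := block_le hq (hm.2 0).1 (hm.2 0).2 (hy1 m hm.1.1 hm.1.2) (hy2 m hm.1.1 hm.1.2)
        have e2 := block_le hq (hm'.2 0).1 (hm'.2 0).2 (hy1 m' hm'.1.1 hm'.1.2)
          (hy2 m' hm'.1.1 hm'.1.2)
        have hpos : (0 : ℤ) < 2 ^ (b - q.1) := by positivity
        have h3 : (m : ℤ) < m' + 1 :=
          lt_of_mul_lt_mul_right (lt_of_le_of_lt e1.1 e2.2) hpos.le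
        have h4 : (m' : ℤ) < m + 1 :=
          lt_of_mul_lt_mul_right (lt_of_le_of_lt e2.1 e1.2) hpos.le
        omega
      have h2 : ((M.filter fun m => y m ∈ cube q).card : ℝ) ≤ 1 := by exact_mod_cast h1
      refine h2.trans (Real.one_le_rpow hone ?_)
      have h3 : 0 ≤ α * (q.1 : ℝ) := by positivity
      nlinarith
    · rcases le_total q.1 (n + 2) with hq2 | hq2
      · have h1 : (M.filter fun m => y m ∈ cube q).card ≤ 2 ^ (q.1 - b) := by
          have h2 : ((M.filter fun m => y m ∈ cube q).image fun m : ℕ => (m : ℤ)) ⊆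
              Finset.Ico (q.2 0 * 2 ^ (q.1 - b)) ((q.2 0 + 1) * 2 ^ (q.1 - b)) := by
            intro z hz
            rw [Finset.mem_image] at hz
            obtain ⟨m, hm, rfl⟩ := hz
            rw [Finset.mem_filter, hM, Finset.mem_Ico] at hm
            have e1 := block_ge hq (hm.2 0).1 (hm.2 0).2 (hy1 m hm.1.1 hm.1.2)
              (hy2 m hm.1.1 hm.1.2)
            exact Finset.mem_Ico.2 e1
          have h3 := Finset.card_le_card h2
          rw [Finset.card_image_of_injective _ Nat.cast_injective, Int.card_Ico] at h3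
          refine h3.trans (le_of_eq ?_)
          rw [show (q.2 0 + 1) * 2 ^ (q.1 - b) - q.2 0 * 2 ^ (q.1 - b) =
            ((2 ^ (q.1 - b) : ℕ) : ℤ) by push_cast; ring, Int.toNat_natCast]
        have h2 : ((M.filter fun m => y m ∈ cube q).card : ℝ) ≤ (2 : ℝ) ^ (q.1 - b) := by
          exact_mod_cast h1
        refine h2.trans ?_
        rw [← Real.rpow_natCast]
        refine Real.rpow_le_rpow_of_exponent_le hone ?_
        rw [Nat.cast_sub hq]
        have h4 : (q.1 : ℝ) ≤ n + 2 := by exact_mod_cast hq2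
        nlinarith
      · have h1 : (M.filter fun m => y m ∈ cube q).card ≤ 2 ^ (n - b) := by
          rw [← hMcard]; exact Finset.card_le_card (Finset.filter_subset _ _)
        have h2 : ((M.filter fun m => y m ∈ cube q).card : ℝ) ≤ (2 : ℝ) ^ (n - b) := by
          exact_mod_cast h1
        refine h2.trans ?_
        rw [← Real.rpow_natCast]
        refine Real.rpow_le_rpow_of_exponent_le hone ?_
        rw [Nat.cast_sub hbn]
        have h4 : (n : ℝ) + 2 ≤ q.1 := by exact_mod_cast hq2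
        nlinarith
  have hsum : (2 : ℝ) ^ (n - b) ≤ (2 : ℝ) ^ ((n : ℝ) + 2 - b) *
      ∑ q ∈ F, (2 : ℝ) ^ (α * ((q.1 : ℝ) - (n + 1 : ℕ) - 1)) := by
    rw [Finset.mul_sum]
    have h1 : (2 : ℝ) ^ (n - b) = (M.card : ℝ) := by rw [hMcard]; push_cast; rfl
    rw [h1]
    exact hcard.trans (Finset.sum_le_sum fun q _ => hbound q)
  have hfin : (1 / 4 : ℝ) ≤ ∑ q ∈ F, (2 : ℝ) ^ (α * ((q.1 : ℝ) - (n + 1 : ℕ) - 1)) := by
    have e : (2 : ℝ) ^ ((n : ℝ) + 2 - b) = 4 * (2 : ℝ) ^ (n - b) := by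
      rw [show (n : ℝ) + 2 - b = ((n - b : ℕ) : ℝ) + (2 : ℕ) by
        rw [Nat.cast_sub hbn]; push_cast; ring]
      rw [Real.rpow_add (by norm_num), Real.rpow_natCast, Real.rpow_natCast]
      ring
    rw [e] at hsum
    have hpos : (0 : ℝ) < 2 ^ (n - b) := by positivity
    nlinarith
  have h4 : (1 / 4 : ℝ≥0∞) = ENNReal.ofReal (1 / 4) := by
    rw [ENNReal.ofReal_div_of_pos (by norm_num)]; simp
  rw [h4, ← ENNReal.ofReal_sum_of_nonneg fun q _ => by positivity]
  exact ENNReal.ofReal_le_ofReal hfin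

/-- In dimension one the lower Hausdorff dimension is at most one. -/
theorem lowerH_le_one (A : Set (Fin 1 → ℤ)) : lowerH A ≤ 1 := by
  have key : ∀ α : ℝ, 1 < α → Tendsto (N α A) atTop (𝓝 0) := by
    intro α hα
    have hle : ∀ k : ℕ, N α A k ≤ ENNReal.ofReal (((2 : ℝ) ^ (1 - α)) ^ (k + 1)) := by
      intro k
      classical
      set F : Finset (ℕ × (Fin 1 → ℤ)) :=
        (Finset.Ico (-2 ^ k : ℤ) (2 ^ k)).image fun z => (0, fun _ => z) with hF
      have hcov : A ∩ S 1 k ⊆ ⋃ q ∈ F, cube q := by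
        rintro x ⟨-, hx⟩
        have hxV : x ∈ V 1 k := by
          cases k with
          | zero => exact hx
          | succ k => exact hx.1
        simp only [Set.mem_iUnion]
        refine ⟨(0, fun _ => x 0), ?_, ?_⟩
        · rw [hF, Finset.mem_image]
          exact ⟨x 0, Finset.mem_Ico.2 (hxV 0), rfl⟩
        · intro i
          rw [Subsingleton.elim i 0]
          simp
      refine (iInf₂_le F hcov).trans ?_
      have hcost : ∀ q ∈ F, ENNReal.ofReal ((2 : ℝ) ^ (α * ((q.1 : ℝ) - k - 1))) =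
          ENNReal.ofReal ((2 : ℝ) ^ (α * (-(k : ℝ) - 1))) := by
        intro q hq
        rw [hF, Finset.mem_image] at hq
        obtain ⟨z, -, rfl⟩ := hq
        congr 2
        push_cast; ring
      rw [Finset.sum_congr rfl hcost, Finset.sum_const, nsmul_eq_mul]
      have hcard : F.card ≤ 2 ^ (k + 1) := by
        refine Finset.card_image_le.trans ?_
        rw [Int.card_Ico]
        rw [show (2 : ℤ) ^ k - -2 ^ k = 2 ^ (k + 1) by ring]
        simp
      calc (F.card : ℝ≥0∞) * ENNReal.ofReal ((2 : ℝ) ^ (α * (-(k : ℝ) - 1)))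
          ≤ ((2 ^ (k + 1) : ℕ) : ℝ≥0∞) * ENNReal.ofReal ((2 : ℝ) ^ (α * (-(k : ℝ) - 1))) := by
            gcongr
        _ = ENNReal.ofReal (((2 : ℝ) ^ (1 - α)) ^ (k + 1)) := by
            rw [← ENNReal.ofReal_natCast, ← ENNReal.ofReal_mul (by positivity)]
            congr 1
            push_cast
            rw [← Real.rpow_natCast, ← Real.rpow_natCast ((2 : ℝ) ^ (1 - α)),
              ← Real.rpow_mul (by norm_num), ← Real.rpow_add (by norm_num)]
            congr 1
            push_cast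
            ring
    have hlim : Tendsto (fun k : ℕ => ENNReal.ofReal (((2 : ℝ) ^ (1 - α)) ^ (k + 1))) atTop
        (𝓝 0) := by
      rw [← ENNReal.ofReal_zero]
      refine ENNReal.tendsto_ofReal ?_
      refine (tendsto_pow_atTop_nhds_zero_of_lt_one (by positivity) ?_).comp
        (tendsto_add_atTop_nat 1)
      exact Real.rpow_lt_one_of_one_lt_of_neg (by norm_num) (by linarith)
    exact tendsto_of_tendsto_of_tendsto_of_le_of_le tendsto_const_nhds hlim (fun _ => zero_le) hle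
  refine le_of_forall_gt_imp_ge_of_dense fun c hc => ?_
  obtain ⟨r, hr1, hr2⟩ := EReal.lt_iff_exists_real_btwn.1 hc
  have hr1' : 1 < r := by exact_mod_cast hr1
  refine le_trans ?_ hr2.le
  exact iInf₂_le r ⟨by linarith, key r hr1'⟩

end Q294.Macro
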