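import Mathlib

/-!
# Macroscopic dimensions of subsets of `ℤ^d` and of the range of a random walk
-/

set_option autoImplicit false

namespace Q294.Macro

open MeasureTheory ProbabilityTheory Filter Topology
open scoped ENNReal

/-- The cube `V_k = [-2^k, 2^k)^d`. -/
def V (d k : ℕ) : Set (Fin d → ℤ) := {x | ∀ i, -2 ^ k ≤ x i ∧ x i < 2 ^ k}

/-- The shells `S_0 = V_0` and `S_{k+1} = V_{k+1} \ V_k`. -/
def S (d : ℕ) : ℕ → Set (Fin d → ℤ)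
  | 0 => V d 0
  | k + 1 => V d (k + 1) \ V d k

/-- The dyadic cube `∏ [j_i 2^ℓ, (j_i + 1) 2^ℓ)`, where `q = (ℓ, j)`. -/
def cube {d : ℕ} (q : ℕ × (Fin d → ℤ)) : Set (Fin d → ℤ) :=
  {x | ∀ i, q.2 i * 2 ^ q.1 ≤ x i ∧ x i < (q.2 i + 1) * 2 ^ q.1}

/-- `N_α(A, S_k)`: the infimum of `∑ 2^{α (ℓ_i - k - 1)}` over the finite covers of `A ∩ S_k` by
dyadic cubes of sidelengths `2^{ℓ_i}`. -/
noncomputable def N {d : ℕ} (α : ℝ) (A : Set (Fin d → ℤ)) (k : ℕ) : ℝ≥0∞ :=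
  ⨅ (F : Finset (ℕ × (Fin d → ℤ))) (_ : A ∩ S d k ⊆ ⋃ q ∈ F, cube q),
    ∑ q ∈ F, ENNReal.ofReal ((2 : ℝ) ^ (α * ((q.1 : ℝ) - k - 1)))

/-- The macroscopic lower Hausdorff dimension: the infimum of the `α > 0` with
`N_α(A, S_k) → 0`. -/
noncomputable def lowerH {d : ℕ} (A : Set (Fin d → ℤ)) : EReal :=
  ⨅ (α : ℝ) (_ : 0 < α ∧ Tendsto (N α A) atTop (𝓝 0)), (α : EReal)

/-- The macroscopic lower Minkowski dimension: the lower limit of `(1/n) log₂ #(A ∩ V_n)`. -/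
noncomputable def lowerM {d : ℕ} (A : Set (Fin d → ℤ)) : EReal :=
  liminf (fun n : ℕ => ((Real.logb 2 (A ∩ V d n).ncard / n : ℝ) : EReal)) atTop

variable {Ω : Type*} [MeasurableSpace Ω]

/-- The random walk with steps `ξ 0, ξ 1, …`, started at the origin. -/
def walk {d : ℕ} (ξ : ℕ → Ω → (Fin d → ℤ)) (n : ℕ) (ω : Ω) : Fin d → ℤ :=
  ∑ i ∈ Finset.range n, ξ i ω

/-- The range of the random walk. -/
def rng {d : ℕ} (ξ : ℕ → Ω → (Fin d → ℤ)) (ω : Ω) : Set (Fin d → ℤ) :=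
  Set.range fun n => walk ξ n ω

/-- `U(A) = ∑_n P(X_n ∈ A)`. -/
noncomputable def U {d : ℕ} (P : Measure Ω) (ξ : ℕ → Ω → (Fin d → ℤ)) (A : Set (Fin d → ℤ)) :
    ℝ≥0∞ :=
  ∑' n, P {ω | walk ξ n ω ∈ A}

/-- Transience: the Green function `g(0, x) = ∑_n P(X_n = x)` is finite for all `x`. -/
def Transient {d : ℕ} (P : Measure Ω) (ξ : ℕ → Ω → (Fin d → ℤ)) : Prop :=
  ∀ x : Fin d → ℤ, ∑' n, P {ω | walk ξ n ω = x} < ∞

/-- `λ_X`: the lower limit of `(1/n) log₂ U(V_n)`. -/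
noncomputable def lam {d : ℕ} (P : Measure Ω) (ξ : ℕ → Ω → (Fin d → ℤ)) : EReal :=
  liminf (fun n : ℕ => ((Real.logb 2 (U P ξ (V d n)).toReal / n : ℝ) : EReal)) atTop

end Q294.Macro
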