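import Pool.Agent.Q294.Macro.Cover

/-!
# The jump law
-/

set_option autoImplicit false

namespace Q294.Macro

open MeasureTheory ProbabilityTheory Filter Topology
open scoped ENNReal

/-- The exponents `b k` of the jump sizes `2^(b k)`. -/
def b : ℕ → ℕ
  | 0 => 0
  | k + 1 => (k + 1) * ((k + 1) * (b k + 2))

/-- The exponents `a k` of the tail probabilities `2^(-a k)`. -/
def a : ℕ → ℕ
  | 0 => 0
  | k + 1 => (k + 1) * (b k + 2)

theorem b_succ (k : ℕ) : b (k + 1) = (k + 1) * a (k + 1) := rfl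

theorem a_succ (k : ℕ) : a (k + 1) = (k + 1) * (b k + 2) := rfl

theorem a_le_b (k : ℕ) : a k ≤ b k := by
  cases k with
  | zero => exact le_rfl
  | succ k => rw [b_succ]; exact Nat.le_mul_of_pos_left _ (Nat.succ_pos k)

theorem b_lt_a (k : ℕ) : b k < a (k + 1) := by
  rw [a_succ]
  nlinarith [Nat.zero_le k, Nat.zero_le (b k)]

theorem b_strictMono : StrictMono b :=
  strictMono_nat_of_lt_succ fun k => (b_lt_a k).trans_le (a_le_b (k + 1))

theorem a_strictMono : StrictMono a :=
  strictMono_nat_of_lt_succ fun k => (a_le_b k).trans_lt (b_lt_a k)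

/-- The tail probabilities. -/
noncomputable def u (k : ℕ) : ℝ := (1 / 2) ^ a k

theorem u_pos (k : ℕ) : 0 < u k := by unfold u; positivity

theorem u_le_one (k : ℕ) : u k ≤ 1 := pow_le_one₀ (by norm_num) (by norm_num)

theorem u_anti (k : ℕ) : u (k + 1) ≤ u k :=
  pow_le_pow_of_le_one (by norm_num) (by norm_num) (a_strictMono (Nat.lt_succ_self k)).le

theorem tendsto_u : Tendsto u atTop (𝓝 0) :=
  (tendsto_pow_atTop_nhds_zero_of_lt_one (by norm_num) (by norm_num)).comp
    a_strictMono.tendsto_atTop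

theorem sum_range_u (n : ℕ) : ∑ k ∈ Finset.range n, (u k - u (k + 1)) = 1 - u n := by
  rw [Finset.sum_range_sub']
  simp [u, a]

theorem hasSum_u : HasSum (fun k => u k - u (k + 1)) 1 := by
  rw [hasSum_iff_tendsto_nat_of_nonneg fun k => sub_nonneg.2 (u_anti k)]
  simp only [sum_range_u]
  simpa using tendsto_u.const_sub 1

/-- The law of the size class of a jump: `P(K ≥ k) = u k`. -/
noncomputable def kap : PMF ℕ :=
  ⟨fun k => ENNReal.ofReal (u k - u (k + 1)), by
    have h := ENNReal.ofReal_tsum_of_nonneg (fun k => sub_nonneg.2 (u_anti k)) hasSum_u.summable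
    rw [hasSum_u.tsum_eq, ENNReal.ofReal_one] at h
    rw [h]
    exact ENNReal.summable.hasSum⟩

theorem kap_lt (k : ℕ) : kap.toMeasure (Set.Iio k) = ENNReal.ofReal (1 - u k) := by
  have h1 : (Set.Iio k : Set ℕ) = ↑(Finset.range k) := by ext; simp
  rw [h1, PMF.toMeasure_apply_finset, ← sum_range_u,
    ENNReal.ofReal_sum_of_nonneg fun i _ => sub_nonneg.2 (u_anti i)]
  rfl

theorem kap_ge (k : ℕ) : kap.toMeasure (Set.Ici k) = ENNReal.ofReal (u k) := by
  have h1 : (Set.Ici k : Set ℕ) = (Set.Iio k)ᶜ := by ext; simp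
  rw [h1, prob_compl_eq_one_sub measurableSet_Iio, kap_lt, ← ENNReal.ofReal_one,
    ← ENNReal.ofReal_sub _ (by linarith [u_le_one k])]
  congr 1
  ring

/-- The probability space. -/
noncomputable def Pr : Measure (ℕ → ℕ) := Measure.infinitePi fun _ => kap.toMeasure

instance : IsProbabilityMeasure Pr := by unfold Pr; infer_instance

/-- The steps. -/
def xi (i : ℕ) (ω : ℕ → ℕ) : Fin 1 → ℤ := fun _ => 2 ^ b (ω i)

theorem measurable_xi (i : ℕ) : Measurable (xi i) := by
  have h : Measurable fun k : ℕ => (fun _ => 2 ^ b k : Fin 1 → ℤ) := Measurable.of_discrete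
  exact h.comp (measurable_pi_apply i)

theorem iIndepFun_xi : iIndepFun xi Pr :=
  iIndepFun_infinitePi (X := fun _ k => (fun _ => 2 ^ b k : Fin 1 → ℤ))
    fun _ => Measurable.of_discrete

theorem identDistrib_xi (i : ℕ) : IdentDistrib (xi i) (xi 0) Pr Pr := by
  refine ⟨(measurable_xi i).aemeasurable, (measurable_xi 0).aemeasurable, ?_⟩
  have h : Measurable fun k : ℕ => (fun _ => 2 ^ b k : Fin 1 → ℤ) := Measurable.of_discrete
  have key : ∀ i, Pr.map (xi i) = kap.toMeasure.map fun k : ℕ => (fun _ => 2 ^ b k : Fin 1 → ℤ) := by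
    intro i
    have h1 : Pr.map (fun ω => ω i) = kap.toMeasure := Measure.infinitePi_map_eval _ i
    rw [← h1, Measure.map_map h (measurable_pi_apply i)]
    rfl
  rw [key i, key 0]

/-- The probability that the first `n` jumps are all of a class below `k`. -/
theorem prob_all_lt (n k : ℕ) : Pr {ω | ∀ i < n, ω i < k} = ENNReal.ofReal (1 - u k) ^ n := by
  have h1 : {ω : ℕ → ℕ | ∀ i < n, ω i < k} = (↑(Finset.range n) : Set ℕ).pi fun _ => Set.Iio k := by
    ext ω; simp [Set.mem_pi]
  rw [h1]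
  unfold Pr
  rw [Measure.infinitePi_pi _ fun _ _ => measurableSet_Iio]
  simp only [kap_lt, Finset.prod_const, Finset.card_range]

/-- The probability that one of the first `n` jumps is of a class at least `k`. -/
theorem prob_exists_ge (n k : ℕ) : Pr {ω | ∃ i < n, k ≤ ω i} ≤ n * ENNReal.ofReal (u k) := by
  have h1 : {ω : ℕ → ℕ | ∃ i < n, k ≤ ω i} = ⋃ i ∈ Finset.range n, {ω | k ≤ ω i} := by
    ext ω; simp
  rw [h1]
  refine (measure_biUnion_finset_le _ _).trans ?_
  have h2 : ∀ i : ℕ, Pr {ω | k ≤ ω i} = ENNReal.ofReal (u k) := by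
    intro i
    have h3 : Pr.map (fun ω => ω i) = kap.toMeasure := Measure.infinitePi_map_eval _ i
    rw [← kap_ge, ← h3, Measure.map_apply (measurable_pi_apply i) measurableSet_Ici]
    rfl
  simp [h2]

theorem walk_apply (n : ℕ) (ω : ℕ → ℕ) :
    walk xi n ω 0 = ∑ i ∈ Finset.range n, (2 : ℤ) ^ b (ω i) := by
  unfold walk
  rw [Finset.sum_apply]
  rfl

theorem walk_succ (n : ℕ) (ω : ℕ → ℕ) : walk xi (n + 1) ω 0 = walk xi n ω 0 + 2 ^ b (ω n) := by
  rw [walk_apply, walk_apply, Finset.sum_range_succ]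

theorem le_walk (n : ℕ) (ω : ℕ → ℕ) : (n : ℤ) ≤ walk xi n ω 0 := by
  induction n with
  | zero => simp [walk_apply]
  | succ n ih =>
    rw [walk_succ]
    have : (1 : ℤ) ≤ 2 ^ b (ω n) := one_le_pow₀ (by norm_num)
    push_cast
    linarith

theorem walk_mono (ω : ℕ → ℕ) : Monotone fun n => walk xi n ω 0 :=
  monotone_nat_of_le_succ fun n => by
    rw [walk_succ]
    have : (0 : ℤ) ≤ 2 ^ b (ω n) := by positivity
    linarith

theorem walk_zero (ω : ℕ → ℕ) : walk xi 0 ω = 0 := by
  unfold walk; simp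

theorem lt_of_walk_mem {n k : ℕ} {ω : ℕ → ℕ} (h : walk xi n ω ∈ V 1 (b k)) : ∀ i < n, ω i < k := by
  intro i hi
  by_contra hcon
  push Not at hcon
  have h1 := (h 0).2
  rw [walk_apply] at h1
  have h2 : (2 : ℤ) ^ b (ω i) ≤ ∑ i ∈ Finset.range n, (2 : ℤ) ^ b (ω i) :=
    Finset.single_le_sum (f := fun i => (2 : ℤ) ^ b (ω i)) (fun _ _ => by positivity)
      (Finset.mem_range.2 hi)
  have h3 : (2 : ℤ) ^ b k ≤ 2 ^ b (ω i) :=
    pow_le_pow_right₀ (by norm_num) (b_strictMono.monotone hcon)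
  linarith

theorem transient : Transient Pr xi := by
  intro x
  have h1 : ∀ n ∉ Finset.range ((x 0).toNat + 1), Pr {ω | walk xi n ω = x} = 0 := by
    intro n hn
    rw [Finset.mem_range] at hn
    have : {ω | walk xi n ω = x} = ∅ := by
      ext ω
      simp only [Set.mem_ofPred_eq, Set.mem_empty_iff_false, iff_false]
      intro h
      have h2 := le_walk n ω
      rw [h] at h2
      omega
    rw [this, measure_empty]
  rw [tsum_eq_sum h1]
  exact ENNReal.sum_lt_top.2 fun n _ => measure_lt_top _ _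

theorem U_le (k : ℕ) : U Pr xi (V 1 (b k)) ≤ ENNReal.ofReal (2 ^ a k) := by
  unfold U
  calc ∑' n, Pr {ω | walk xi n ω ∈ V 1 (b k)}
      ≤ ∑' n : ℕ, ENNReal.ofReal (1 - u k) ^ n := by
        refine ENNReal.tsum_le_tsum fun n => ?_
        rw [← prob_all_lt]
        exact measure_mono fun ω hω => lt_of_walk_mem hω
    _ = (1 - ENNReal.ofReal (1 - u k))⁻¹ := ENNReal.tsum_geometric _
    _ = ENNReal.ofReal (2 ^ a k) := by
        rw [← ENNReal.ofReal_one, ← ENNReal.ofReal_sub _ (by linarith [u_le_one k]),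
          ← ENNReal.ofReal_inv_of_pos (by linarith [u_pos k])]
        congr 1
        rw [sub_sub_cancel]
        unfold u
        simp

theorem tendsto_b : Tendsto b atTop atTop := b_strictMono.tendsto_atTop

theorem k_le_a (k : ℕ) : k ≤ a k := a_strictMono.id_le k

theorem lam_eq : lam Pr xi = 0 := by
  unfold lam
  apply le_antisymm
  · refine le_of_forall_gt_imp_ge_of_dense fun c hc => ?_
    obtain ⟨r, hr1, hr2⟩ := EReal.lt_iff_exists_real_btwn.1 hc
    have hr0 : 0 < r := by exact_mod_cast hr1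
    refine le_trans ?_ hr2.le
    refine liminf_le_of_frequently_le ?_
    have h1 : ∀ᶠ k : ℕ in atTop, 1 / (k : ℝ) ≤ r ∧ 1 ≤ k := by
      have := (tendsto_one_div_atTop_nhds_zero_nat (𝕜 := ℝ)).eventually (gt_mem_nhds hr0)
      filter_upwards [this, eventually_ge_atTop 1] with k hk hk1
      exact ⟨hk.le, hk1⟩
    have h2 : ∀ᶠ k : ℕ in atTop,
        ((Real.logb 2 (U Pr xi (V 1 (b k))).toReal / (b k : ℕ) : ℝ) : EReal) ≤ (r : EReal) := by
      filter_upwards [h1] with k hk
      rw [EReal.coe_le_coe_iff]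
      obtain ⟨j, rfl⟩ : ∃ j, k = j + 1 := ⟨k - 1, by omega⟩
      have h3 : (U Pr xi (V 1 (b (j + 1)))).toReal ≤ 2 ^ a (j + 1) :=
        ENNReal.toReal_le_of_le_ofReal (by positivity) (U_le (j + 1))
      have h4 : Real.logb 2 (U Pr xi (V 1 (b (j + 1)))).toReal ≤ a (j + 1) := by
        rcases eq_or_lt_of_le (ENNReal.toReal_nonneg (a := U Pr xi (V 1 (b (j + 1))))) with h | h
        · rw [← h, Real.logb_zero]; positivity
        · rw [Real.logb_le_iff_le_rpow (by norm_num) h, Real.rpow_natCast]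
          exact h3
      have ha : 0 < a (j + 1) := lt_of_lt_of_le (Nat.succ_pos j) (k_le_a (j + 1))
      have ha' : (0 : ℝ) < a (j + 1) := by exact_mod_cast ha
      calc Real.logb 2 (U Pr xi (V 1 (b (j + 1)))).toReal / (b (j + 1) : ℕ)
          ≤ a (j + 1) / (b (j + 1) : ℕ) := by gcongr
        _ = 1 / ((j + 1 : ℕ) : ℝ) := by
            rw [b_succ]; push_cast; field_simp
        _ ≤ r := hk.1
    exact tendsto_b.frequently h2.frequently
  · refine le_liminf_of_le (by isBoundedDefault) (Eventually.of_forall fun n => ?_)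
    have h1 : 0 ≤ Real.logb 2 (U Pr xi (V 1 n)).toReal / n := by
      refine div_nonneg ?_ (Nat.cast_nonneg n)
      by_cases htop : U Pr xi (V 1 n) = ⊤
      · rw [htop]; simp
      · refine Real.logb_nonneg (by norm_num) ?_
        have h2 : 1 ≤ U Pr xi (V 1 n) := by
          have h3 : Pr {ω | walk xi 0 ω ∈ V 1 n} = 1 := by
            have : {ω : ℕ → ℕ | walk xi 0 ω ∈ V 1 n} = Set.univ := by
              ext ω
              simp only [Set.mem_ofPred_eq, Set.mem_univ, iff_true, walk_zero]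
              intro i
              simp
            rw [this, measure_univ]
          rw [← h3]
          exact ENNReal.le_tsum (f := fun n' => Pr {ω | walk xi n' ω ∈ V 1 n}) 0
        have h4 := ENNReal.toReal_mono htop h2
        simpa using h4
    exact_mod_cast h1

end Q294.Macro
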