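import Pool.Agent.Q294.Macro.Jumps

/-!
# The macroscopic dimensions of the range
-/

set_option autoImplicit false

namespace Q294.Macro

open MeasureTheory ProbabilityTheory Filter Topology
open scoped ENNReal

/-- The good scales. -/
def sc (k : ℕ) : ℕ := (k + 1) * (b k + 1)

theorem a_succ' (k : ℕ) : a (k + 1) = sc k + (k + 1) := by
  unfold sc
  rw [a_succ]; ring

theorem le_sc (k : ℕ) : k ≤ sc k := by
  unfold sc
  nlinarith [Nat.zero_le k, Nat.zero_le (b k)]

theorem b_lt_sc (k : ℕ) : b k < sc k := by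
  unfold sc
  nlinarith [Nat.zero_le k, Nat.zero_le (b k)]

/-- Almost surely, for all large `k` the first `2^(sc k)` jumps are of class at most `k`. -/
theorem ae_small : ∀ᵐ ω ∂Pr, ∀ᶠ k in atTop, ∀ i < 2 ^ sc k, ω i ≤ k := by
  have hs : ∑' k : ℕ, Pr {ω | ∃ i < 2 ^ sc k, k + 1 ≤ ω i} ≠ ∞ := by
    have h1 : ∀ k : ℕ, Pr {ω | ∃ i < 2 ^ sc k, k + 1 ≤ ω i} ≤ ENNReal.ofReal ((1 / 2) ^ (k + 1)) := by
      intro k
      refine (prob_exists_ge _ _).trans (le_of_eq ?_)
      rw [← ENNReal.ofReal_natCast, ← ENNReal.ofReal_mul (by positivity)]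
      congr 1
      unfold u
      rw [a_succ', pow_add]
      push_cast
      rw [← mul_assoc, ← mul_pow]
      norm_num
    refine ne_top_of_le_ne_top ?_ (ENNReal.tsum_le_tsum h1)
    have h2 : Summable fun k : ℕ => ((1 : ℝ) / 2) ^ (k + 1) := by
      have := summable_geometric_two
      simp only [pow_succ]
      exact this.mul_right _
    rw [← ENNReal.ofReal_tsum_of_nonneg (fun k => by positivity) h2]
    exact ENNReal.ofReal_ne_top
  filter_upwards [ae_eventually_notMem hs] with ω hω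
  filter_upwards [hω] with k hk i hi
  by_contra hcon
  push Not at hcon
  exact hk ⟨i, hi, hcon⟩

/-- Almost surely, for all large `k` one of the first `2^(k + a k)` jumps is of class at least
`k`. -/
theorem ae_large : ∀ᵐ ω ∂Pr, ∀ᶠ k in atTop, ∃ i < 2 ^ (k + a k), k ≤ ω i := by
  have hs : ∑' k : ℕ, Pr {ω | ∀ i < 2 ^ (k + a k), ω i < k} ≠ ∞ := by
    have h1 : ∀ k : ℕ, Pr {ω | ∀ i < 2 ^ (k + a k), ω i < k} ≤ ENNReal.ofReal ((1 / 2) ^ k) := by
      intro k
      rw [prob_all_lt, ← ENNReal.ofReal_pow (by linarith [u_le_one k])]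
      refine ENNReal.ofReal_le_ofReal ?_
      have hu := u_pos k
      have hu1 := u_le_one k
      set m : ℕ := 2 ^ (k + a k) with hm
      have hmu : (m : ℝ) * u k = 2 ^ k := by
        rw [hm]
        unfold u
        push_cast
        rw [pow_add, mul_assoc, ← mul_pow]
        norm_num
      have hbern : 1 + (m : ℝ) * u k ≤ (1 + u k) ^ m := one_add_mul_le_pow (by linarith) m
      have hprod : (1 - u k) ^ m * (1 + u k) ^ m ≤ 1 := by
        rw [← mul_pow]
        exact pow_le_one₀ (by nlinarith) (by nlinarith)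
      have h2 : (1 - u k) ^ m * 2 ^ k ≤ 1 := by
        refine le_trans ?_ hprod
        refine mul_le_mul_of_nonneg_left ?_ (pow_nonneg (by linarith) m)
        rw [← hmu]
        linarith
      rw [one_div, inv_pow, ← one_div, le_div_iff₀ (by positivity)]
      exact h2
    refine ne_top_of_le_ne_top ?_ (ENNReal.tsum_le_tsum h1)
    rw [← ENNReal.ofReal_tsum_of_nonneg (fun k => by positivity) summable_geometric_two]
    exact ENNReal.ofReal_ne_top
  filter_upwards [ae_eventually_notMem hs] with ω hω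
  filter_upwards [hω] with k hk
  by_contra hcon
  push Not at hcon
  exact hk hcon

theorem lowerM_eq {ω : ℕ → ℕ} (h : ∀ᶠ k in atTop, ∃ i < 2 ^ (k + a k), k ≤ ω i) :
    lowerM (rng xi ω) = 0 := by
  unfold lowerM
  apply le_antisymm
  · refine le_of_forall_gt_imp_ge_of_dense fun c hc => ?_
    obtain ⟨r, hr1, hr2⟩ := EReal.lt_iff_exists_real_btwn.1 hc
    have hr0 : 0 < r := by exact_mod_cast hr1
    refine le_trans ?_ hr2.le
    refine liminf_le_of_frequently_le ?_
    have h1 : ∀ᶠ k : ℕ in atTop, 2 * (1 / (k : ℝ)) ≤ r ∧ 1 ≤ k := by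
      have := ((tendsto_one_div_atTop_nhds_zero_nat (𝕜 := ℝ)).const_mul 2).eventually
        (gt_mem_nhds (by simpa using hr0))
      filter_upwards [this, eventually_ge_atTop 1] with k hk hk1
      exact ⟨hk.le, hk1⟩
    have h2 : ∀ᶠ k : ℕ in atTop,
        ((Real.logb 2 (rng xi ω ∩ V 1 (b k)).ncard / (b k : ℕ) : ℝ) : EReal) ≤ (r : EReal) := by
      filter_upwards [h1, h] with k hk hex
      rw [EReal.coe_le_coe_iff]
      obtain ⟨j, rfl⟩ : ∃ j, k = j + 1 := ⟨k - 1, by omega⟩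
      set m : ℕ := 2 ^ (j + 1 + a (j + 1)) with hm
      -- the walk leaves the cube before time `m`
      have hsub : rng xi ω ∩ V 1 (b (j + 1)) ⊆
          ((Finset.range m).image fun n => walk xi n ω : Finset (Fin 1 → ℤ)) := by
        rintro x ⟨⟨n, rfl⟩, hx⟩
        rw [Finset.mem_coe, Finset.mem_image]
        refine ⟨n, ?_, rfl⟩
        rw [Finset.mem_range]
        by_contra hcon
        push Not at hcon
        obtain ⟨i, hi, hki⟩ := hex
        have := lt_of_walk_mem hx i (lt_of_lt_of_le hi hcon)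
        omega
      have hcard : (rng xi ω ∩ V 1 (b (j + 1))).ncard ≤ m := by
        refine (Set.ncard_le_ncard hsub (Finset.finite_toSet _)).trans ?_
        rw [Set.ncard_coe_finset]
        exact Finset.card_image_le.trans (by rw [Finset.card_range])
      have h4 : Real.logb 2 (rng xi ω ∩ V 1 (b (j + 1))).ncard ≤ j + 1 + a (j + 1) := by
        rcases Nat.eq_zero_or_pos (rng xi ω ∩ V 1 (b (j + 1))).ncard with h0 | h0
        · rw [h0]; simp; positivity
        · rw [Real.logb_le_iff_le_rpow (by norm_num) (by exact_mod_cast h0)]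
          have h5 : ((j : ℝ) + 1 + a (j + 1)) = ((j + 1 + a (j + 1) : ℕ) : ℝ) := by push_cast; ring
          rw [h5, Real.rpow_natCast]
          have h6 : ((rng xi ω ∩ V 1 (b (j + 1))).ncard : ℝ) ≤ (m : ℝ) := by exact_mod_cast hcard
          refine h6.trans (le_of_eq ?_)
          rw [hm]; push_cast; ring
      have hja : ((j : ℝ) + 1) ≤ a (j + 1) := by exact_mod_cast k_le_a (j + 1)
      have ha' : (0 : ℝ) < a (j + 1) := by
        have : (0 : ℝ) ≤ j := Nat.cast_nonneg j
        linarith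
      calc Real.logb 2 (rng xi ω ∩ V 1 (b (j + 1))).ncard / (b (j + 1) : ℕ)
          ≤ (j + 1 + a (j + 1)) / (b (j + 1) : ℕ) := by gcongr
        _ ≤ (2 * a (j + 1)) / (b (j + 1) : ℕ) := by gcongr; linarith
        _ = 2 * (1 / ((j + 1 : ℕ) : ℝ)) := by
            rw [b_succ]; push_cast; field_simp
        _ ≤ r := hk.1
    exact tendsto_b.frequently h2.frequently
  · refine le_liminf_of_le (by isBoundedDefault) (Eventually.of_forall fun n => ?_)
    have h1 : 0 ≤ Real.logb 2 (rng xi ω ∩ V 1 n).ncard / n := by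
      refine div_nonneg ?_ (Nat.cast_nonneg n)
      rcases Nat.eq_zero_or_pos (rng xi ω ∩ V 1 n).ncard with h0 | h0
      · rw [h0]; simp
      · exact Real.logb_nonneg (by norm_num) (by exact_mod_cast h0)
    exact_mod_cast h1

/-- If all jumps before time `2^(sc k)` are at most `2^(b k)`, the range meets every block of length
`2^(b k)`. -/
theorem meets {ω : ℕ → ℕ} {k : ℕ} (h : ∀ i < 2 ^ sc k, ω i ≤ k) (m : ℕ)
    (hm : m < 2 ^ (sc k - b k)) :
    ∃ y ∈ rng xi ω, (m : ℤ) * 2 ^ b k ≤ y 0 ∧ y 0 < ((m : ℤ) + 1) * 2 ^ b k := by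
  classical
  have hpos : (0 : ℤ) < 2 ^ b k := by positivity
  have hex : ∃ n : ℕ, ((m : ℤ) + 1) * 2 ^ b k ≤ walk xi n ω 0 := by
    refine ⟨(((m : ℤ) + 1) * 2 ^ b k).toNat, ?_⟩
    exact (Int.self_le_toNat _).trans (le_walk _ ω)
  set n := Nat.find hex with hn
  have h1 : ((m : ℤ) + 1) * 2 ^ b k ≤ walk xi n ω 0 := Nat.find_spec hex
  have hn0 : n ≠ 0 := by
    intro h0
    rw [h0, walk_zero] at h1
    have : (0 : ℤ) < ((m : ℤ) + 1) * 2 ^ b k := by positivity
    have h2 : ((0 : Fin 1 → ℤ) 0) = 0 := rfl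
    rw [h2] at h1
    linarith
  obtain ⟨i, hi⟩ : ∃ i, n = i + 1 := ⟨n - 1, by omega⟩
  have h2 : walk xi i ω 0 < ((m : ℤ) + 1) * 2 ^ b k := by
    have := Nat.find_min hex (m := i) (by omega)
    push Not at this
    exact this
  refine ⟨walk xi i ω, ⟨i, rfl⟩, ?_, h2⟩
  have h3 : i < 2 ^ sc k := by
    have h4 := le_walk i ω
    have h5 : ((m : ℤ) + 1) * 2 ^ b k ≤ 2 ^ sc k := by
      have h6 : ((m : ℤ) + 1) ≤ 2 ^ (sc k - b k) := by exact_mod_cast hm
      calc ((m : ℤ) + 1) * 2 ^ b k ≤ 2 ^ (sc k - b k) * 2 ^ b k :=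
            mul_le_mul_of_nonneg_right h6 hpos.le
        _ = 2 ^ sc k := by rw [← pow_add, Nat.sub_add_cancel (b_lt_sc k).le]
    have h7 : (i : ℤ) < 2 ^ sc k := by linarith
    exact_mod_cast h7
  rw [hi, walk_succ] at h1
  have h8 : (2 : ℤ) ^ b (ω i) ≤ 2 ^ b k :=
    pow_le_pow_right₀ (by norm_num) (b_strictMono.monotone (h i h3))
  linarith

theorem lowerH_eq {ω : ℕ → ℕ} (h : ∀ᶠ k in atTop, ∀ i < 2 ^ sc k, ω i ≤ k) :
    lowerH (rng xi ω) = 1 := by
  refine le_antisymm (lowerH_le_one _) ?_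
  unfold lowerH
  refine le_iInf₂ fun α hα => ?_
  by_contra hcon
  push Not at hcon
  have hα1 : α < 1 := by exact_mod_cast hcon
  -- the cost stays above `1/4`
  have h1 : ∀ᶠ k : ℕ in atTop, 1 / 4 ≤ N α (rng xi ω) (sc k) := by
    have h2 : ∀ᶠ k : ℕ in atTop, 1 / (1 - α) ≤ (k : ℝ) :=
      tendsto_natCast_atTop_atTop.eventually_ge_atTop _
    filter_upwards [h, h2] with k hk hk2
    obtain ⟨n, hn⟩ : ∃ n, sc k = n + 1 := ⟨sc k - 1, by have := b_lt_sc k; omega⟩
    rw [hn]
    have hbn : b k ≤ n := by have := b_lt_sc k; omega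
    refine quarter_le hbn hα.1 hα1 ?_ fun m _ hm2 => ?_
    · rw [div_le_iff₀ (by linarith)] at hk2
      have h3 : ((n : ℝ) + 1) = ((k : ℝ) + 1) * (b k + 1) := by
        have : ((n + 1 : ℕ) : ℝ) = ((sc k : ℕ) : ℝ) := by rw [hn]
        unfold sc at this
        push_cast at this
        exact this
      have h4 : (0 : ℝ) ≤ b k := Nat.cast_nonneg _
      have h5 : (n : ℝ) + 2 = ((k : ℝ) + 1) * (b k + 1) + 1 := by linarith
      rw [h5]
      have h6 : 0 < 1 - α := by linarith
      have h7 : (b k : ℝ) + 1 ≤ (k * (1 - α)) * (b k + 1) := by nlinarith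
      nlinarith
    · refine meets hk m ?_
      rw [hn]
      exact hm2
  have h3 : Tendsto sc atTop atTop := tendsto_atTop_mono le_sc tendsto_id
  have h4 := (hα.2.comp h3)
  have h5 : ∀ᶠ k : ℕ in atTop, N α (rng xi ω) (sc k) < 1 / 4 :=
    h4.eventually (gt_mem_nhds (by simp))
  obtain ⟨k, hk1, hk2⟩ := (h1.and h5).exists
  exact absurd hk1 (not_le.2 hk2)

end Q294.Macro
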